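import Pool.Agent.helper20.SOL.SpecE

/-!
# Project sol, row ME8d
-/

set_option autoImplicit false

namespace Pool.Agent.SOL

open Pool.Agent.helper54.SOG Finset

open scoped BigOperators

/-! ### the inclusion `VE R8 8 ⊆ 2 XE8 2` -/

/-- eight orthogonal vectors of norm `8` in dimension `8` form eight orthogonal columns -/
theorem ME8d_gram (S : Finset (Vec 8)) (hc : S.card = 8) (h8 : ∀ a ∈ S, dp a a = 8)
    (ho : ∀ a ∈ S, ∀ b ∈ S, a ≠ b → dp a b = 0) (j k : Fin 8) :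
    ∑ a ∈ S, a j * a k = if j = k then 8 else 0 := by
  classical
  set e := S.equivFinOfCardEq hc with he
  set B : Matrix (Fin 8) (Fin 8) ℚ := Matrix.of fun i j => ((((e.symm i : S) : Vec 8) j : ℤ) : ℚ)
    with hB
  have h1 : B * ((1 / 8 : ℚ) • B.transpose) = 1 := by
    ext i l
    rw [Matrix.mul_apply, Matrix.one_apply]
    have e1 : ∑ m, B i m * ((1 / 8 : ℚ) • B.transpose) m l =
        1 / 8 * ((dp ((e.symm i : S) : Vec 8) ((e.symm l : S) : Vec 8) : ℤ) : ℚ) := by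
      unfold dp
      push_cast
      rw [Finset.mul_sum]
      refine Finset.sum_congr rfl fun m _ => ?_
      rw [Matrix.smul_apply, Matrix.transpose_apply, hB, Matrix.of_apply, Matrix.of_apply, smul_eq_mul]
      ring
    rw [e1]
    by_cases hil : i = l
    · subst hil
      rw [h8 _ (e.symm i).2, if_pos rfl]
      norm_num
    · rw [ho _ (e.symm i).2 _ (e.symm l).2 (fun h => hil (e.symm.injective (Subtype.ext h))), if_neg hil]
      norm_num
  have h2 := mul_eq_one_comm.1 h1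
  have h3 : ((∑ a ∈ S, a j * a k : ℤ) : ℚ) = if j = k then 8 else 0 := by
    have e2 : (((1 / 8 : ℚ) • B.transpose) * B) j k = (1 : Matrix (Fin 8) (Fin 8) ℚ) j k := by rw [h2]
    rw [Matrix.mul_apply, Matrix.one_apply] at e2
    have e3 : ∑ m, ((1 / 8 : ℚ) • B.transpose) j m * B m k =
        1 / 8 * ((∑ a ∈ S, a j * a k : ℤ) : ℚ) := by
      have e4 : (∑ a ∈ S, a j * a k : ℤ) =
          ∑ m : Fin 8, ((e.symm m : S) : Vec 8) j * ((e.symm m : S) : Vec 8) k := by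
        rw [← Finset.sum_coe_sort S (fun a => a j * a k)]
        exact (Equiv.sum_comp e.symm (fun a : S => (a : Vec 8) j * (a : Vec 8) k)).symm
      rw [e4]
      push_cast
      rw [Finset.mul_sum]
      refine Finset.sum_congr rfl fun m _ => ?_
      rw [Matrix.smul_apply, Matrix.transpose_apply, hB, Matrix.of_apply, Matrix.of_apply, smul_eq_mul]
      ring
    rw [e3] at e2
    split_ifs at e2 ⊢ with hjk
    · linarith
    · linarith
  split_ifs at h3 ⊢ with hjk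
  · exact_mod_cast h3
  · exact_mod_cast h3

/-- Parseval -/
theorem ME8d_pars (S : Finset (Vec 8)) (hc : S.card = 8) (h8 : ∀ a ∈ S, dp a a = 8)
    (ho : ∀ a ∈ S, ∀ b ∈ S, a ≠ b → dp a b = 0) (b : Vec 8) :
    ∑ a ∈ S, dp b a ^ 2 = 8 * dp b b := by
  have h1 : ∀ a : Vec 8, dp b a ^ 2 = ∑ j, ∑ k, b j * b k * (a j * a k) := by
    intro a
    unfold dp
    rw [sq, Finset.sum_mul_sum]
    refine Finset.sum_congr rfl fun j _ => Finset.sum_congr rfl fun k _ => ?_
    ring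
  rw [Finset.sum_congr rfl fun a _ => h1 a, Finset.sum_comm]
  unfold dp
  rw [Finset.mul_sum]
  refine Finset.sum_congr rfl fun j _ => ?_
  rw [Finset.sum_comm]
  have h2 : ∀ k, ∑ a ∈ S, b j * b k * (a j * a k) = if j = k then b j * b k * 8 else 0 := by
    intro k
    rw [← Finset.mul_sum, ME8d_gram S hc h8 ho j k]
    split_ifs
    · rfl
    · rw [mul_zero]
  rw [Finset.sum_congr rfl fun k _ => h2 k, Finset.sum_ite_eq, if_pos (Finset.mem_univ _)]
  ring

/-- a root has inner product divisible by `8` with a sum of eight orthogonal roots -/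
theorem ME8d_dvd (hELB : ELB_stmt) {x : Vec 8} (hx : x ∈ VE R8 8) {b : Vec 8} (hb : b ∈ R8) :
    8 ∣ dp b x := by
  obtain ⟨S, hc, hS, ho, rfl⟩ := hx
  have hb8 : dp b b = 8 := by
    have := hb.2
    push_cast at this
    linarith
  have hp := ME8d_pars S hc (fun a ha => by
    have := (hS a ha).2
    push_cast at this
    linarith) ho b
  rw [hb8] at hp
  have h4 : ∀ a ∈ S, 4 ∣ dp b a := fun a ha => Int.dvd_of_emod_eq_zero (hELB.2.1 b a hb.1 (hS a ha).1).1
  have hsum : dp b (∑ a ∈ S, a) = ∑ a ∈ S, dp b a := by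
    unfold dp
    rw [Finset.sum_comm]
    refine Finset.sum_congr rfl fun i _ => ?_
    rw [Finset.sum_apply, Finset.mul_sum]
  rw [hsum]
  have e1 : ∑ a ∈ S, dp b a = 4 * ∑ a ∈ S, dp b a / 4 := by
    rw [Finset.mul_sum]
    refine Finset.sum_congr rfl fun a ha => ?_
    rw [Int.mul_ediv_cancel' (h4 a ha)]
  have e2 : ∑ a ∈ S, dp b a ^ 2 = 16 * ∑ a ∈ S, (dp b a / 4) ^ 2 := by
    rw [Finset.mul_sum]
    refine Finset.sum_congr rfl fun a ha => ?_
    have := Int.mul_ediv_cancel' (h4 a ha)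
    calc dp b a ^ 2 = (4 * (dp b a / 4)) ^ 2 := by rw [this]
      _ = 16 * (dp b a / 4) ^ 2 := by ring
  have e3 : ∑ a ∈ S, (dp b a / 4) ^ 2 = 4 := by
    rw [e2] at hp
    linarith
  have e4 : (2 : ℤ) ∣ ∑ a ∈ S, (dp b a / 4) ^ 2 - ∑ a ∈ S, dp b a / 4 := by
    rw [← Finset.sum_sub_distrib]
    refine Finset.dvd_sum fun a _ => ?_
    have : (dp b a / 4) ^ 2 - dp b a / 4 = (dp b a / 4 - 1) * (dp b a / 4) := by ring
    rw [this]
    have h := Int.even_mul_succ_self (dp b a / 4 - 1)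
    rw [sub_add_cancel] at h
    exact h.two_dvd
  rw [e3] at e4
  rw [e1]
  omega

/-- the vector with the entries `s` at `i`, `t` at `j` -/
def ME8d_two (i j : Fin 8) (s t : ℤ) : Vec 8 := fun k => if k = i then s else if k = j then t else 0

theorem ME8d_two_dp {i j : Fin 8} (hij : i ≠ j) (s t : ℤ) (x : Vec 8) :
    dp (ME8d_two i j s t) x = s * x i + t * x j := by
  unfold dp ME8d_two
  have : ∀ k, (if k = i then s else if k = j then t else 0) * x k =
      (if k = i then s * x i else 0) + (if k = j then t * x j else 0) := by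
    intro k
    by_cases h1 : k = i
    · subst h1
      rw [if_pos rfl, if_pos rfl, if_neg hij, add_zero]
    · rw [if_neg h1, if_neg h1, zero_add]
      split_ifs with h2
      · rw [h2]
      · rw [zero_mul]
  rw [Finset.sum_congr rfl fun k _ => this k, Finset.sum_add_distrib, Finset.sum_ite_eq',
    Finset.sum_ite_eq', if_pos (Finset.mem_univ _), if_pos (Finset.mem_univ _)]

theorem ME8d_two_mem {i j : Fin 8} (hij : i ≠ j) (t : ℤ) (ht : t = 2 ∨ t = -2) :
    ME8d_two i j 2 t ∈ R8 := by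
  refine ⟨⟨fun k l => ?_, ?_⟩, ?_⟩
  · have : ∀ k, ME8d_two i j 2 t k % 2 = 0 := by
      intro k
      unfold ME8d_two
      rcases ht with rfl | rfl
      · split_ifs <;> rfl
      · split_ifs <;> rfl
    rw [this, this]
  · have h1 := ME8d_two_dp hij 2 t (fun _ => 1)
    unfold dp at h1
    simp only [mul_one] at h1
    rw [h1]
    rcases ht with rfl | rfl <;> rfl
  · rw [ME8d_two_dp hij]
    unfold ME8d_two
    rw [if_pos rfl, if_neg hij.symm, if_pos rfl]
    rcases ht with rfl | rfl <;> rfl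

theorem ME8d_sub (hELB : ELB_stmt) {x : Vec 8} (hx : x ∈ VE R8 8) : ∃ y ∈ XE8 2, x = y + y := by
  have hd := fun {b : Vec 8} (hb : b ∈ R8) => ME8d_dvd hELB hx hb
  have hn : dp x x = 64 := by
    have := (((hELB.2.2.1 8 x).1) hx).2
    push_cast at this
    linarith
  have hp : ∀ i j : Fin 8, i ≠ j → 4 ∣ x i + x j ∧ 4 ∣ x i - x j := by
    intro i j hij
    have h1 := hd (ME8d_two_mem hij 2 (Or.inl rfl))
    have h2 := hd (ME8d_two_mem hij (-2) (Or.inr rfl))
    rw [ME8d_two_dp hij] at h1 h2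
    omega
  have hev : ∀ i, 2 ∣ x i := by
    intro i
    obtain ⟨j, hj⟩ : ∃ j : Fin 8, i ≠ j := by
      by_cases h : i = 0
      · exact ⟨1, by rw [h]; decide⟩
      · exact ⟨0, h⟩
    have := hp i j hj
    omega
  have hone : (8 : ℤ) ∣ ∑ i, x i := by
    have h1 := hd (b := fun _ => 1) ⟨⟨fun _ _ => rfl, by decide⟩, by decide⟩
    unfold dp at h1
    simp only [one_mul] at h1
    exact h1
  have hx2 : ∀ i, x i = 2 * (x i / 2) := fun i => (Int.mul_ediv_cancel' (hev i)).symm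
  refine ⟨fun i => x i / 2, ⟨⟨fun i j => ?_, ?_⟩, ?_⟩, ?_⟩
  · show x i / 2 % 2 = x j / 2 % 2
    by_cases hij : i = j
    · rw [hij]
    · have h1 := hp i j hij
      have h2 := hx2 i
      have h3 := hx2 j
      omega
  · show (∑ i, x i / 2) % 4 = 0
    have h1 : ∑ i, x i = 2 * ∑ i, x i / 2 := by
      rw [Finset.mul_sum]
      exact Finset.sum_congr rfl fun i _ => hx2 i
    rw [h1] at hone
    omega
  · have h1 : dp x x = 4 * dp (fun i => x i / 2) (fun i => x i / 2) := by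
      unfold dp
      rw [Finset.mul_sum]
      refine Finset.sum_congr rfl fun i _ => ?_
      have h2 := hx2 i
      calc x i * x i = (2 * (x i / 2)) * (2 * (x i / 2)) := by rw [← h2]
        _ = 4 * (x i / 2 * (x i / 2)) := by ring
    rw [hn] at h1
    push_cast
    linarith
  · funext i
    show x i = x i / 2 + x i / 2
    have := hx2 i
    omega

/-! ### the inclusion `2 XE8 2 ⊆ VE R8 8` -/

/-- check of the lists of roots -/
theorem ME8d_lst (hCLQ : CLQ_stmt) (L : List (Vec 8)) (hL : L.length = 8)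
    (h1 : ∀ a ∈ L, (∀ i j, a i % 2 = a j % 2) ∧ (∑ i, a i) % 4 = 0 ∧ dp a a = 8)
    (h2 : L.Pairwise (fun a b => dp a b = 0)) : L.sum ∈ VE R8 8 := by
  have h := hCLQ R8 L (fun a ha => by
    obtain ⟨h3, h4, h5⟩ := h1 a ha
    refine ⟨⟨⟨h3, h4⟩, ?_⟩, h5⟩
    rw [h5]
    norm_num) h2
  rwa [hL] at h

def ME8d_L1 : List (Vec 8) :=
  [![2, 0, 0, 0, 2, 0, 0, 0], ![2, 0, 0, 0, -2, 0, 0, 0], ![0, 2, 0, 0, 0, 2, 0, 0],
   ![0, 2, 0, 0, 0, -2, 0, 0], ![0, 0, 2, 0, 0, 0, 2, 0], ![0, 0, 2, 0, 0, 0, -2, 0],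
   ![0, 0, 0, 2, 0, 0, 0, 2], ![0, 0, 0, 2, 0, 0, 0, -2]]

def ME8d_L2 : List (Vec 8) :=
  [![1, 1, 1, 1, 1, 1, 1, 1], ![1, 1, 1, 1, -1, -1, -1, -1], ![1, 1, -1, -1, 1, 1, -1, -1],
   ![1, 1, -1, -1, -1, -1, 1, 1], ![1, -1, 1, -1, 1, -1, 1, -1], ![1, -1, 1, -1, -1, 1, -1, 1],
   ![1, -1, -1, 1, 1, -1, -1, 1], ![1, -1, -1, 1, -1, 1, 1, -1]]

def ME8d_L3 : List (Vec 8) :=
  [![2, -2, 0, 0, 0, 0, 0, 0], ![0, 0, 2, 2, 0, 0, 0, 0], ![0, 0, 0, 0, 2, 2, 0, 0],
   ![0, 0, 0, 0, 0, 0, 2, -2], ![1, 1, 1, -1, 1, -1, 1, 1], ![1, 1, 1, -1, -1, 1, -1, -1],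
   ![1, 1, -1, 1, 1, -1, -1, -1], ![1, 1, -1, 1, -1, 1, 1, 1]]

theorem ME8d_r1 (hCLQ : CLQ_stmt) : (![4, 4, 4, 4, 0, 0, 0, 0] : Vec 8) ∈ VE R8 8 := by
  have h := ME8d_lst hCLQ ME8d_L1 rfl (by unfold ME8d_L1; decide) (by unfold ME8d_L1; decide)
  have e : ME8d_L1.sum = (![4, 4, 4, 4, 0, 0, 0, 0] : Vec 8) := by unfold ME8d_L1; decide
  rwa [e] at h

theorem ME8d_r2 (hCLQ : CLQ_stmt) : (![8, 0, 0, 0, 0, 0, 0, 0] : Vec 8) ∈ VE R8 8 := by
  have h := ME8d_lst hCLQ ME8d_L2 rfl (by unfold ME8d_L2; decide) (by unfold ME8d_L2; decide)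
  have e : ME8d_L2.sum = (![8, 0, 0, 0, 0, 0, 0, 0] : Vec 8) := by unfold ME8d_L2; decide
  rwa [e] at h

theorem ME8d_r3 (hCLQ : CLQ_stmt) : (![6, 2, 2, 2, 2, 2, 2, -2] : Vec 8) ∈ VE R8 8 := by
  have h := ME8d_lst hCLQ ME8d_L3 rfl (by unfold ME8d_L3; decide) (by unfold ME8d_L3; decide)
  have e : ME8d_L3.sum = (![6, 2, 2, 2, 2, 2, 2, -2] : Vec 8) := by unfold ME8d_L3; decide
  rwa [e] at h

theorem ME8d_cN_double (y : Vec 8) (v : ℤ) : cN 8 (y + y) (2 * v) = cN 8 y v := by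
  unfold cN
  congr 1
  refine Finset.filter_congr fun i _ => ?_
  have : |(y + y) i| = 2 * |y i| := by
    have e : (y + y) i = 2 * y i := by
      rw [Pi.add_apply]
      ring
    rw [e, abs_mul, abs_two]
  rw [this]
  constructor
  · rintro ⟨h1, h2⟩
    exact ⟨h1, by linarith⟩
  · rintro ⟨h1, h2⟩
    exact ⟨h1, by linarith⟩

theorem ME8d_cN_par (x : Vec 8) (v r : ℤ) (h : ∀ i, x i % 2 = r) (hv : v % 2 ≠ r) :
    cN 8 x v = 0 := by
  unfold cN
  rw [Finset.card_eq_zero, Finset.filter_eq_empty_iff]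
  rintro i - ⟨_, h1⟩
  have h2 := h i
  rcases abs_choice (x i) with h3 | h3
  · rw [h3] at h1
    omega
  · rw [h3] at h1
    omega

/-- counting for a vector of norm `16` -/
theorem ME8d_cnt (hCTE : CTE_stmt) {y : Vec 8} (hy : dp y y = 16) : (∀ i, |y i| ≤ 8) ∧
    cN 8 y 0 + cN 8 y 1 + cN 8 y 2 + cN 8 y 3 + cN 8 y 4 + cN 8 y 5 + cN 8 y 6 + cN 8 y 7 + cN 8 y 8 = 8 ∧
    cN 8 y 1 + 4 * cN 8 y 2 + 9 * cN 8 y 3 + 16 * cN 8 y 4 + 25 * cN 8 y 5 + 36 * cN 8 y 6 +
      49 * cN 8 y 7 + 64 * cN 8 y 8 = 16 := by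
  have hb : ∀ i, |y i| ≤ 8 := by
    intro i
    have h1 : y i * y i ≤ dp y y := by
      unfold dp
      exact Finset.single_le_sum (f := fun i => y i * y i) (fun j _ => mul_self_nonneg _)
        (Finset.mem_univ i)
    rw [hy] at h1
    rw [abs_le]
    constructor <;> nlinarith
  obtain ⟨h1, h2, -, h4⟩ := hCTE 8 y le_rfl hb
  refine ⟨hb, ?_, ?_⟩
  · simp only [Finset.sum_range_succ, Finset.sum_range_zero] at h1
    push_cast at h1
    omega
  · have h5 : ∑ i ∈ univ.filter (fun i : Fin 8 => ¬ i.val < 8), y i * y i = 0 := by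
      apply Finset.sum_eq_zero
      intro i hi
      exact absurd i.2 (Finset.mem_filter.1 hi).2
    rw [h5, add_zero, h2, hy] at h4
    simp only [Finset.sum_range_succ, Finset.sum_range_zero] at h4
    push_cast at h4
    omega

/-- equal numbers -/
theorem ME8d_eq (hCTE : CTE_stmt) {y s : Vec 8} (hy : ∀ i, |y i| ≤ 8) (hs : ∀ i, |s i| ≤ 8)
    (h : ∀ v : ℕ, v ≤ 8 → cN 8 y (v : ℤ) = cN 8 s (v : ℤ)) (v : ℤ) : cN 8 y v = cN 8 s v := by
  by_cases h0 : v < 0 ∨ 8 < v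
  · rw [(hCTE 8 y le_rfl hy).2.2.1 v h0, (hCTE 8 s le_rfl hs).2.2.1 v h0]
  · push Not at h0
    have h1 := h v.toNat (by omega)
    rwa [Int.toNat_of_nonneg h0.1] at h1

theorem ME8d_eq2 {y s : Vec 8} (h : ∀ v : ℤ, cN 8 y v = cN 8 s v) (v : ℤ) :
    cN 8 (y + y) v = cN 8 (s + s) v := by
  rcases Int.emod_two_eq_zero_or_one v with hv | hv
  · obtain ⟨u, rfl⟩ := Int.dvd_of_emod_eq_zero hv
    rw [ME8d_cN_double, ME8d_cN_double, h u]
  · have h1 : ∀ z : Vec 8, cN 8 (z + z) v = 0 := fun z =>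
      ME8d_cN_par (z + z) v 0 (fun i => by
        show (z i + z i) % 2 = 0
        omega) (by omega)
    rw [h1, h1]

theorem ME8d_pN_double (y : Vec 8) : pN 8 (y + y) = 256 * pN 8 y := by
  unfold pN
  have h1 : ∀ i, (y + y) i = 2 * y i := fun i => by
    rw [Pi.add_apply]
    ring
  simp only [h1]
  rw [Finset.prod_mul_distrib, Finset.prod_const]
  rfl

theorem ME8d_sup (hREP : REP_stmt) (hCTE : CTE_stmt) (hPRD : PRD_stmt) (hCLQ : CLQ_stmt)
    {y : Vec 8} (hy : y ∈ XE8 2) : y + y ∈ VE R8 8 := by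
  have hn : dp y y = 16 := by
    have := hy.2
    push_cast at this
    linarith
  obtain ⟨hb, c1, c2⟩ := ME8d_cnt hCTE hn
  -- the even cases
  have even : ∀ s : Vec 8, s + s ∈ VE R8 8 → (∀ v : ℤ, cN 8 y v = cN 8 s v) → 0 < cN 8 y 0 →
      y + y ∈ VE R8 8 := by
    intro s hs h h0
    have h1 := ME8d_eq2 h
    have h2 := hPRD.2.1 8 (y + y) (s + s) h1 (by
      have := ME8d_cN_double y 0
      rw [mul_zero] at this
      rwa [this])
    exact (hREP 8 (y + y) (s + s)).1 h1 (h2.1.trans h2.2.symm) hs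
  rcases Int.emod_two_eq_zero_or_one (y 0) with h0 | h0
  · have hpar : ∀ v : ℤ, v % 2 ≠ 0 → cN 8 y v = 0 := fun v hv =>
      ME8d_cN_par y v 0 (fun i => by rw [hy.1.1 i 0, h0]) hv
    have z1 := hpar 1 (by decide)
    have z3 := hpar 3 (by decide)
    have z5 := hpar 5 (by decide)
    have z7 := hpar 7 (by decide)
    rw [z1, z3, z5, z7] at c1 c2
    have hcase : (cN 8 y 0 = 7 ∧ cN 8 y 2 = 0 ∧ cN 8 y 4 = 1 ∧ cN 8 y 6 = 0 ∧ cN 8 y 8 = 0) ∨
        (cN 8 y 0 = 4 ∧ cN 8 y 2 = 4 ∧ cN 8 y 4 = 0 ∧ cN 8 y 6 = 0 ∧ cN 8 y 8 = 0) := by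
      have q6 : cN 8 y 6 = 0 := by omega
      have q8 : cN 8 y 8 = 0 := by omega
      have q4 : cN 8 y 4 ≤ 1 := by omega
      interval_cases hq : cN 8 y 4
      · right
        omega
      · left
        omega
    rcases hcase with ⟨a0, a2, a4, a6, a8⟩ | ⟨a0, a2, a4, a6, a8⟩
    · refine even ![4, 0, 0, 0, 0, 0, 0, 0] ?_ (ME8d_eq hCTE hb (by decide) ?_) (by omega)
      · have e : (![4, 0, 0, 0, 0, 0, 0, 0] : Vec 8) + ![4, 0, 0, 0, 0, 0, 0, 0] =
            ![8, 0, 0, 0, 0, 0, 0, 0] := by decide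
        rw [e]
        exact ME8d_r2 hCLQ
      · intro v hv
        interval_cases v
        · exact a0
        · exact z1
        · exact a2
        · exact z3
        · exact a4
        · exact z5
        · exact a6
        · exact z7
        · exact a8
    · refine even ![2, 2, 2, 2, 0, 0, 0, 0] ?_ (ME8d_eq hCTE hb (by decide) ?_) (by omega)
      · have e : (![2, 2, 2, 2, 0, 0, 0, 0] : Vec 8) + ![2, 2, 2, 2, 0, 0, 0, 0] =
            ![4, 4, 4, 4, 0, 0, 0, 0] := by decide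
        rw [e]
        exact ME8d_r1 hCLQ
      · intro v hv
        interval_cases v
        · exact a0
        · exact z1
        · exact a2
        · exact z3
        · exact a4
        · exact z5
        · exact a6
        · exact z7
        · exact a8
  · have hpar : ∀ v : ℤ, v % 2 ≠ 1 → cN 8 y v = 0 := fun v hv =>
      ME8d_cN_par y v 1 (fun i => by rw [hy.1.1 i 0, h0]) hv
    have z0 := hpar 0 (by decide)
    have z2 := hpar 2 (by decide)
    have z4 := hpar 4 (by decide)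
    have z6 := hpar 6 (by decide)
    have z8 := hpar 8 (by decide)
    rw [z0, z2, z4, z6, z8] at c1
    rw [z2, z4, z6, z8] at c2
    have hcase : cN 8 y 1 = 7 ∧ cN 8 y 3 = 1 ∧ cN 8 y 5 = 0 ∧ cN 8 y 7 = 0 := by omega
    obtain ⟨a1, a3, a5, a7⟩ := hcase
    have hcn := ME8d_eq hCTE hb (s := ![3, 1, 1, 1, 1, 1, 1, -1]) (by decide) (by
      intro v hv
      interval_cases v
      · exact z0
      · exact a1
      · exact z2
      · exact a3
      · exact z4
      · exact a5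
      · exact z6
      · exact a7
      · exact z8)
    have h1 := ME8d_eq2 hcn
    have h2 := hPRD.1 8 y ![3, 1, 1, 1, 1, 1, 1, -1] (Or.inl rfl) hy.1 ⟨by decide, by decide⟩ h0
      (fun i hi => absurd i.2 (by omega)) hcn
    refine (hREP 8 (y + y) (![3, 1, 1, 1, 1, 1, 1, -1] + ![3, 1, 1, 1, 1, 1, 1, -1])).1 h1 (by
      rw [ME8d_pN_double, ME8d_pN_double, h2]) ?_
    have e : (![3, 1, 1, 1, 1, 1, 1, -1] : Vec 8) + ![3, 1, 1, 1, 1, 1, 1, -1] =
        ![6, 2, 2, 2, 2, 2, 2, -2] := by decide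
    rw [e]
    exact ME8d_r3 hCLQ

theorem ME8d (hREP : REP_stmt) (hCTE : CTE_stmt) (hPRD : PRD_stmt) (hCLQ : CLQ_stmt)
    (hELB : ELB_stmt) : ME8d_stmt := by
  intro x
  constructor
  · exact ME8d_sub hELB
  · rintro ⟨y, hy, rfl⟩
    exact ME8d_sup hREP hCTE hPRD hCLQ hy

end Pool.Agent.SOL
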